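import Mathlib

set_option linter.unusedSectionVars false

namespace Pool.Agent.Results.MP_cb1103_lc.SingleOrbitUnbounded

/-- A `k`-local constraint `(α₁, ..., α_k; S)` on functions `K → F`: points `α_i` of `K` and a
proper subset `S` of `F^k`. -/
structure LocalConstraint (F K : Type) (k : ℕ) where
  pt : Fin k → K
  S : Set (Fin k → F)
  proper : S ≠ Set.univ

/-- `f` satisfies the constraint if `(f α₁, ..., f α_k) ∈ S`. -/
def LocalConstraint.Sat {F K : Type} {k : ℕ} (C : LocalConstraint F K k) (f : K → F) : Prop :=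
  (fun i => f (C.pt i)) ∈ C.S

/-- The constraint `C ∘ π` for the affine map `π x = a * x + b`. -/
def LocalConstraint.comp {F K : Type} [Field K] {k : ℕ} (C : LocalConstraint F K k) (a b : K) :
    LocalConstraint F K k :=
  ⟨fun i => a * C.pt i + b, C.S, C.proper⟩

/-- A property `P` of functions `K → F` is affine-invariant if it is an `F`-linear subspace and is
closed under composition with the maps `x ↦ a * x + b`, `a ≠ 0`. -/
def AffineInvariant {F K : Type} [Field F] [Field K] (P : Set (K → F)) : Prop :=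
  (∃ V : Submodule F (K → F), (V : Set (K → F)) = P) ∧
    ∀ f ∈ P, ∀ a b : K, a ≠ 0 → (fun x => f (a * x + b)) ∈ P

/-- `P` has a `k`-local characterization. -/
def HasLocalCharacterization {F K : Type} (k : ℕ) (P : Set (K → F)) : Prop :=
  ∃ CC : Set (LocalConstraint F K k), ∀ f : K → F, f ∈ P ↔ ∀ C ∈ CC, C.Sat f

/-- `P` has a `k`-single orbit characterization. -/
def HasSingleOrbitCharacterization {F K : Type} [Field K] (k : ℕ) (P : Set (K → F)) : Prop :=
  ∃ C : LocalConstraint F K k, ∀ f : K → F, f ∈ P ↔ ∀ a b : K, a ≠ 0 → (C.comp a b).Sat f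

/-- `k'(P)`, the least `k'` such that `P` has a `k'`-single orbit characterization. -/
noncomputable def singleOrbitLocality {F K : Type} [Field K] (P : Set (K → F)) : ℕ :=
  sInf {k | HasSingleOrbitCharacterization k P}

/-! ### Proof -/

section general

variable {K : Type} [Field K] [Finite K] [Algebra (ZMod 2) K] [CharP K 2] {r : ℕ}

/-- the map `x ↦ x ^ (2 ^ n)` -/
noncomputable abbrev fr (n : ℕ) : K →+* K := iterateFrobenius K 2 n

/-- Points of the six-point constraints. -/
def Good (u : Fin r → ℕ) (x : Fin 6 → K) : Prop :=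
  ∑ l, x l = 0 ∧ ∀ S : Finset (Fin r), ∑ l, x l * fr (∑ i ∈ S, u i) (x l) = 0

/-- The property. -/
def PP (u : Fin r → ℕ) : Submodule (ZMod 2) (K → ZMod 2) where
  carrier := {f | ∀ x : Fin 6 → K, Good u x → ∑ l, f (x l) = 0}
  zero_mem' := by intro x _; simp
  add_mem' := by
    intro f g hf hg x hx
    simp [Finset.sum_add_distrib, hf x hx, hg x hx]
  smul_mem' := by
    intro c f hf x hx
    simp [← Finset.mul_sum, hf x hx]

lemma two_eq_zero' : (2 : K) = 0 := by
  have := CharP.cast_eq_zero K 2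
  exact_mod_cast this

lemma good_affine (u : Fin r → ℕ) (x : Fin 6 → K) (hx : Good u x) (a b : K) :
    Good u (fun l => a * x l + b) := by
  have h2 : (2 : K) = 0 := two_eq_zero'
  have h6 : (6 : K) = 0 := by linear_combination 3 * h2
  obtain ⟨h0, hS⟩ := hx
  constructor
  · rw [Finset.sum_add_distrib, ← Finset.mul_sum, h0]
    simp [h6]
  · intro S
    have e : ∀ l, (a * x l + b) * fr (∑ i ∈ S, u i) (a * x l + b) =
        a * fr (∑ i ∈ S, u i) a * (x l * fr (∑ i ∈ S, u i) (x l))
        + a * fr (∑ i ∈ S, u i) b * x l + b * fr (∑ i ∈ S, u i) a * fr (∑ i ∈ S, u i) (x l)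
        + b * fr (∑ i ∈ S, u i) b := by
      intro l
      rw [map_add, map_mul]
      ring
    simp_rw [e]
    rw [Finset.sum_add_distrib, Finset.sum_add_distrib, Finset.sum_add_distrib,
      ← Finset.mul_sum, ← Finset.mul_sum, ← Finset.mul_sum, hS S, h0, ← map_sum, h0]
    simp [h6]

lemma affineInvariant_PP (u : Fin r → ℕ) :
    AffineInvariant ((PP u : Submodule (ZMod 2) (K → ZMod 2)) : Set (K → ZMod 2)) := by
  refine ⟨⟨_, rfl⟩, ?_⟩
  intro f hf a b _ x hx
  exact hf _ (good_affine u x hx a b)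

lemma hasLocal_PP (u : Fin r → ℕ) :
    HasLocalCharacterization 6 ((PP u : Submodule (ZMod 2) (K → ZMod 2)) : Set (K → ZMod 2)) := by
  have hne : {v : Fin 6 → ZMod 2 | ∑ l, v l = 0} ≠ Set.univ := by
    intro h
    have : (Pi.single 0 1 : Fin 6 → ZMod 2) ∈ {v : Fin 6 → ZMod 2 | ∑ l, v l = 0} := by
      rw [h]; trivial
    simp at this
  refine ⟨{C | Good u C.pt ∧ C.S = {v : Fin 6 → ZMod 2 | ∑ l, v l = 0}}, ?_⟩
  intro f
  constructor
  · rintro hf C ⟨h1, h2⟩
    unfold LocalConstraint.Sat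
    rw [h2]
    exact hf C.pt h1
  · intro h x hx
    exact h ⟨x, _, hne⟩ ⟨hx, rfl⟩

/-- trace to `ZMod 2` -/
noncomputable abbrev tr (x : K) : ZMod 2 := Algebra.trace (ZMod 2) K x

lemma tr_sum (x : Fin 6 → K) : ∑ l, tr (x l) = tr (∑ l, x l) := by
  simp [tr]

lemma lin_mem (u : Fin r → ℕ) (c : K) : (fun x => tr (c * x)) ∈ PP (K := K) u := by
  intro x hx
  rw [tr_sum (fun l => c * x l), ← Finset.mul_sum, hx.1]
  simp [tr]

lemma linfr_mem (u : Fin r → ℕ) (c : K) (n : ℕ) :
    (fun x => tr (c * fr n x)) ∈ PP (K := K) u := by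
  intro x hx
  rw [tr_sum (fun l => c * fr n (x l)), ← Finset.mul_sum, ← map_sum, hx.1]
  simp [tr]

lemma const_mem (u : Fin r → ℕ) (c : ZMod 2) : (fun _ => c) ∈ PP (K := K) u := by
  intro x hx
  have h6 : (6 : ZMod 2) = 0 := by decide
  simp [h6]

lemma quad_mem (u : Fin r → ℕ) (c : K) (S : Finset (Fin r)) :
    (fun x => tr (c * (x * fr (∑ i ∈ S, u i) x))) ∈ PP (K := K) u := by
  intro x hx
  rw [tr_sum (fun l => c * (x l * fr (∑ i ∈ S, u i) (x l))), ← Finset.mul_sum, hx.2 S]
  simp [tr]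

/-- The chain of subspaces of `K^k`. -/
def VV {k : ℕ} (α : Fin k → K) (u : Fin r → ℕ) (n : ℕ) : Submodule K (Fin k → K) :=
  Submodule.span K ({fun _ => (1 : K)} ∪
    {v | ∃ S : Finset (Fin r), (∀ i ∈ S, (i : ℕ) < n) ∧
      v = fun l => fr (∑ i ∈ S, u i) (α l)})

lemma VV_mono {k : ℕ} (α : Fin k → K) (u : Fin r → ℕ) (n : ℕ) :
    VV α u n ≤ VV α u (n + 1) := by
  apply Submodule.span_mono
  apply Set.union_subset_union_right
  rintro v ⟨S, hS, rfl⟩
  exact ⟨S, fun i hi => (hS i hi).trans (Nat.lt_succ_self n), rfl⟩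

lemma VV_stab {k : ℕ} (α : Fin k → K) (u : Fin r → ℕ) (n : ℕ) (hn : n < r)
    (h : VV α u (n + 1) ≤ VV α u n) (v : Fin k → K) (hv : v ∈ VV α u n) :
    (fun l => fr (u ⟨n, hn⟩) (v l)) ∈ VV α u n := by
  induction hv using Submodule.span_induction with
  | mem v hv =>
    rcases hv with hv | ⟨S, hS, rfl⟩
    · rw [Set.mem_singleton_iff] at hv
      subst hv
      apply Submodule.subset_span
      left
      simp
    · apply h
      apply Submodule.subset_span
      right
      refine ⟨insert ⟨n, hn⟩ S, ?_, ?_⟩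
      · intro i hi
        rcases Finset.mem_insert.1 hi with rfl | hi
        · simp
        · exact (hS i hi).trans (Nat.lt_succ_self n)
      · funext l
        have hnS : (⟨n, hn⟩ : Fin r) ∉ S := fun hmem => lt_irrefl _ (hS _ hmem)
        rw [Finset.sum_insert hnS, iterateFrobenius_add_apply]
  | zero =>
    have : (fun l => fr (u ⟨n, hn⟩) ((0 : Fin k → K) l)) = 0 := by
      funext l
      simp
    rw [this]
    exact Submodule.zero_mem _
  | add x y _ _ hx hy =>
    have : (fun l => fr (u ⟨n, hn⟩) ((x + y) l)) =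
        (fun l => fr (u ⟨n, hn⟩) (x l)) + fun l => fr (u ⟨n, hn⟩) (y l) := by
      funext l
      simp
    rw [this]
    exact Submodule.add_mem _ hx hy
  | smul a x _ hx =>
    have : (fun l => fr (u ⟨n, hn⟩) ((a • x) l)) =
        fr (u ⟨n, hn⟩) a • fun l => fr (u ⟨n, hn⟩) (x l) := by
      funext l
      simp
    rw [this]
    exact Submodule.smul_mem _ _ hx

lemma exists_stable {k : ℕ} (hk : k < r) (α : Fin k → K) (u : Fin r → ℕ) :
    ∃ n < r, VV α u (n + 1) ≤ VV α u n := by
  by_contra! hcon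
  have key : ∀ n ≤ r, n ≤ Module.finrank K (VV α u n) := by
    intro n
    induction n with
    | zero => intro _; exact Nat.zero_le _
    | succ n ih =>
      intro hn
      have h1 := ih (by omega)
      have h2 : VV α u n < VV α u (n + 1) :=
        lt_of_le_not_ge (VV_mono α u n) (hcon n (by omega))
      have h3 := Submodule.finrank_lt_finrank_of_lt h2
      omega
  have h1 := key r le_rfl
  have h2 := Submodule.finrank_le (VV α u r)
  rw [Module.finrank_fin_fun] at h2
  omega

lemma exists_agree {k : ℕ} (α : Fin k → K) (u : Fin r → ℕ) (n : ℕ) (w : Fin k → K)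
    (hw : w ∈ VV α u n) :
    ∀ c : K, ∃ p ∈ PP (K := K) u, ∀ l, tr (c * (α l * w l)) = p (α l) := by
  induction hw using Submodule.span_induction with
  | mem v hv =>
    intro c
    rcases hv with hv | ⟨S, hS, rfl⟩
    · rw [Set.mem_singleton_iff] at hv
      subst hv
      exact ⟨_, lin_mem u c, fun l => by simp⟩
    · exact ⟨_, quad_mem u c S, fun l => rfl⟩
  | zero =>
    intro c
    exact ⟨0, Submodule.zero_mem _, fun l => by simp [tr]⟩
  | add x y _ _ hx hy =>
    intro c
    obtain ⟨p, hp, h1⟩ := hx c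
    obtain ⟨q, hq, h2⟩ := hy c
    refine ⟨p + q, Submodule.add_mem _ hp hq, fun l => ?_⟩
    rw [Pi.add_apply, Pi.add_apply, ← h1, ← h2]
    simp only [tr]
    rw [← map_add]
    congr 1
    ring
  | smul a x _ hx =>
    intro c
    obtain ⟨p, hp, h1⟩ := hx (c * a)
    refine ⟨p, hp, fun l => ?_⟩
    rw [← h1 l, Pi.smul_apply, smul_eq_mul]
    congr 1
    ring

lemma exists_not_mem (u : Fin r → ℕ) (x : Fin 6 → K) (hx : Good u x) (m : ℕ)
    (hne : ∑ l, x l * fr m (x l) ≠ 0) :
    ∃ c : K, (fun x => tr (c * (x * fr m x))) ∉ PP (K := K) u := by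
  by_contra! hall
  -- nondegeneracy of the trace
  obtain ⟨y, hy⟩ : ∃ y : K, tr y ≠ 0 := by
    by_contra! h
    exact Algebra.trace_ne_zero (ZMod 2) K (LinearMap.ext h)
  set z := ∑ l, x l * fr m (x l) with hz
  have h1 := hall (y / z) x hx
  rw [tr_sum (fun l => y / z * (x l * fr m (x l))), ← Finset.mul_sum, ← hz,
    div_mul_cancel₀ _ hne] at h1
  exact hy h1

/-- Every affine-invariant property other than the set of all functions has a single orbit
characterization (with one point for every element of `K`). -/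
lemma exists_single_orbit {F : Type} [Field F] (P : Set (K → F)) (hP : AffineInvariant P)
    (hne : P ≠ Set.univ) : ∃ k, HasSingleOrbitCharacterization k P := by
  obtain ⟨k, ⟨e⟩⟩ := Finite.exists_equiv_fin K
  have hS : {v : Fin k → F | ∃ f ∈ P, v = fun i => f (e.symm i)} ≠ Set.univ := by
    intro h
    apply hne
    rw [Set.eq_univ_iff_forall]
    intro f
    have h1 : (fun i => f (e.symm i)) ∈ {v : Fin k → F | ∃ f ∈ P, v = fun i => f (e.symm i)} := by
      rw [h]; trivial
    obtain ⟨g, hg, h2⟩ := h1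
    have : f = g := by
      funext x
      have := congrFun h2 (e x)
      simpa using this
    rw [this]
    exact hg
  refine ⟨k, ⟨fun i => e.symm i, _, hS⟩, fun f => ⟨fun hf a b ha => ?_, fun hf => ?_⟩⟩
  · exact ⟨_, hP.2 f hf a b ha, rfl⟩
  · obtain ⟨g, hg, h2⟩ := hf 1 0 one_ne_zero
    have : f = g := by
      funext x
      have := congrFun h2 (e x)
      simpa [LocalConstraint.comp] using this
    rw [this]
    exact hg

/-- The lower bound. -/
lemma no_single_orbit (u : Fin r → ℕ)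
    (hdet : ∀ i : Fin r, ∃ x : Fin 6 → K, Good u x ∧ ∑ l, x l * fr (u i + u i) (x l) ≠ 0)
    {k : ℕ} (hk : k < r) :
    ¬ HasSingleOrbitCharacterization k
      ((PP u : Submodule (ZMod 2) (K → ZMod 2)) : Set (K → ZMod 2)) := by
  rintro ⟨C, hC⟩
  obtain ⟨n, hn, hV⟩ := exists_stable hk C.pt u
  obtain ⟨x, hx, hne⟩ := hdet ⟨n, hn⟩
  have hα : C.pt ∈ VV C.pt u n := by
    apply Submodule.subset_span
    right
    refine ⟨∅, by simp, ?_⟩
    funext l
    simp
  have hw : (fun l => fr (u ⟨n, hn⟩ + u ⟨n, hn⟩) (C.pt l)) ∈ VV C.pt u n := by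
    have h1 := VV_stab C.pt u n hn hV _ (VV_stab C.pt u n hn hV _ hα)
    convert h1 using 1
    funext l
    rw [iterateFrobenius_add_apply]
  have hagree := exists_agree C.pt u n _ hw
  set m := u ⟨n, hn⟩ + u ⟨n, hn⟩ with hm
  -- all the functions `x ↦ tr (c x τ(x))` are in the property
  have hall : ∀ c : K, (fun x => tr (c * (x * fr m x))) ∈ PP (K := K) u := by
    intro c
    have : (fun x => tr (c * (x * fr m x))) ∈
        ((PP u : Submodule (ZMod 2) (K → ZMod 2)) : Set (K → ZMod 2)) := by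
      rw [hC]
      intro a b ha
      obtain ⟨p, hp, h1⟩ := hagree (c * a * fr m a)
      let q : K → ZMod 2 := p + (fun x => tr (c * a * fr m b * x)) +
        (fun x => tr (c * b * fr m a * fr m x)) + fun _ => tr (c * b * fr m b)
      have hq : q ∈ PP (K := K) u :=
        Submodule.add_mem _ (Submodule.add_mem _ (Submodule.add_mem _ hp (lin_mem u _))
          (linfr_mem u _ m)) (const_mem u _)
      have hq' := (hC q).1 hq 1 0 one_ne_zero
      unfold LocalConstraint.Sat LocalConstraint.comp at hq' ⊢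
      simp only [one_mul, add_zero] at hq' ⊢
      convert hq' using 1
      funext l
      change tr (c * ((a * C.pt l + b) * fr m (a * C.pt l + b))) = q (C.pt l)
      simp only [q, Pi.add_apply]
      rw [← h1 l]
      simp only [tr]
      rw [← map_add, ← map_add, ← map_add]
      congr 1
      rw [map_add, map_mul]
      ring
    exact this
  obtain ⟨c, hc⟩ := exists_not_mem u x hx m hne
  exact hc (hall c)

/-- Six points which are polynomials in `c`. -/
def six (c : K) : Fin 6 → K :=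
  ![c * (c ^ 3 + c ^ 2 + 1), c * (c ^ 3 + c + 1), c ^ 3 + c ^ 2, c ^ 3 + c ^ 2 + 1,
    (c + 1) * (c ^ 3 + c + 1), c ^ 4]

lemma map_six (φ : K →+* K) (c : K) (l : Fin 6) : φ (six c l) = six (φ c) l := by
  fin_cases l <;> simp [six]

lemma six_sum (c : K) : ∑ l, six c l = 0 := by
  have h2 : (2 : K) = 0 := two_eq_zero'
  simp only [Fin.sum_univ_six, six]
  simp
  linear_combination (1 + 2 * c + 2 * c ^ 2 + 2 * c ^ 3 + 2 * c ^ 4) * h2

lemma six_sum_two (c : K) : ∑ l, six c l * six c l = 0 := by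
  have h2 : (2 : K) = 0 := two_eq_zero'
  simp only [Fin.sum_univ_six, six]
  simp
  linear_combination (1 + 2 * c ^ 1 + 5 * c ^ 2 + 5 * c ^ 3 + 6 * c ^ 4 + 7 * c ^ 5 +
    4 * c ^ 6 + 2 * c ^ 7 + 2 * c ^ 8) * h2

lemma six_sum_three (c : K) : ∑ l, six c l * (six c l) ^ 2 = 0 := by
  have h2 : (2 : K) = 0 := two_eq_zero'
  simp only [Fin.sum_univ_six, six]
  simp
  linear_combination (1 + 3 * c ^ 1 + 9 * c ^ 2 + 14 * c ^ 3 + 18 * c ^ 4 + 24 * c ^ 5 +
    23 * c ^ 6 + 21 * c ^ 7 + 18 * c ^ 8 + 11 * c ^ 9 + 6 * c ^ 10 + 3 * c ^ 11 +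
    2 * c ^ 12) * h2

lemma six_sum_five (c : K) : ∑ l, six c l * (six c l) ^ 4 =
    c ^ 16 + c ^ 14 + c ^ 13 + c ^ 11 + c ^ 9 + c ^ 7 + c ^ 6 + c ^ 4 := by
  have h2 : (2 : K) = 0 := two_eq_zero'
  simp only [Fin.sum_univ_six, six]
  simp
  linear_combination (1 + 5 * c ^ 1 + 25 * c ^ 2 + 65 * c ^ 3 + 132 * c ^ 4 + 227 * c ^ 5 +
    332 * c ^ 6 + 437 * c ^ 7 + 505 * c ^ 8 + 532 * c ^ 9 + 517 * c ^ 10 + 447 * c ^ 11 +
    365 * c ^ 12 + 272 * c ^ 13 + 177 * c ^ 14 + 112 * c ^ 15 + 62 * c ^ 16 + 30 * c ^ 17 +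
    15 * c ^ 18 + 5 * c ^ 19 + 2 * c ^ 20) * h2

lemma fr_six_of_fix (n : ℕ) (c : K) (h : fr n c = c) (l : Fin 6) : fr n (six c l) = six c l := by
  rw [map_six, h]

lemma fr_six_of_sq (n : ℕ) (c : K) (h : fr n c = c ^ 2) (l : Fin 6) :
    fr n (six c l) = (six c l) ^ 2 := by
  rw [map_six, h, ← iterateFrobenius_one_apply K 2 c, ← map_six, iterateFrobenius_one_apply]

lemma six_good (u : Fin r → ℕ) (i : Fin r) (c : K) (h0 : ∀ j ≠ i, fr (u j) c = c)
    (h1 : fr (u i) c = c ^ 2) : Good u (six c) := by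
  refine ⟨six_sum c, fun S => ?_⟩
  have hfix : ∀ T : Finset (Fin r), i ∉ T → fr (∑ j ∈ T, u j) c = c := by
    intro T
    induction T using Finset.induction_on with
    | empty => intro _; simp
    | insert a T ha ih =>
      intro hi
      rw [Finset.sum_insert ha, iterateFrobenius_add_apply,
        ih (fun h => hi (Finset.mem_insert_of_mem h))]
      exact h0 a (fun h => hi (h ▸ Finset.mem_insert_self _ _))
  by_cases hi : i ∈ S
  · have h2 : fr (∑ j ∈ S, u j) c = c ^ 2 := by
      rw [← Finset.insert_erase hi, Finset.sum_insert (Finset.notMem_erase i S),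
        iterateFrobenius_add_apply, hfix _ (Finset.notMem_erase i S), h1]
    simp_rw [fr_six_of_sq _ c h2]
    exact six_sum_three c
  · simp_rw [fr_six_of_fix _ c (hfix S hi)]
    exact six_sum_two c

lemma six_detect (u : Fin r → ℕ) (i : Fin r) (c : K) (h1 : fr (u i) c = c ^ 2)
    (hc : c ^ 16 + c ^ 14 + c ^ 13 + c ^ 11 + c ^ 9 + c ^ 7 + c ^ 6 + c ^ 4 ≠ 0) :
    ∑ l, six c l * fr (u i + u i) (six c l) ≠ 0 := by
  have h2 : ∀ l, fr (u i + u i) (six c l) = (six c l) ^ 4 := by
    intro l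
    rw [iterateFrobenius_add_apply, fr_six_of_sq _ c h1, map_pow, fr_six_of_sq _ c h1]
    ring
  simp_rw [h2]
  rw [six_sum_five]
  exact hc

lemma fr_mul_fix (m k : ℕ) (c : K) (h : fr m c = c) : fr (m * k) c = c := by
  induction k with
  | zero => simp
  | succ k ih => rw [Nat.mul_succ, iterateFrobenius_add_apply, h, ih]

/-- existence of `c` -/
lemma exists_c (m t : ℕ) (hm : 5 ≤ m) (hmt : m ∣ t) (hK : Module.finrank (ZMod 2) K = t) :
    ∃ c : K, fr m c = c ∧
      c ^ 16 + c ^ 14 + c ^ 13 + c ^ 11 + c ^ 9 + c ^ 7 + c ^ 6 + c ^ 4 ≠ 0 := by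
  have hm0 : m ≠ 0 := by omega
  have hcard : Nat.card (GaloisField 2 m) = 2 ^ m := GaloisField.card 2 m hm0
  have hfin : Module.finrank (ZMod 2) (GaloisField 2 m) = m := GaloisField.finrank 2 hm0
  obtain ⟨φ⟩ : Nonempty (GaloisField 2 m →ₐ[ZMod 2] K) := by
    apply FiniteField.nonempty_algHom_of_finrank_dvd
    rw [hfin, hK]
    exact hmt
  let Q : Polynomial (GaloisField 2 m) := .X ^ 16 + .X ^ 14 + .X ^ 13 + .X ^ 11 + .X ^ 9 +
    .X ^ 7 + .X ^ 6 + .X ^ 4
  have hdeg : Q.natDegree = 16 := by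
    simp only [Q]
    compute_degree!
  have hQ : Q ≠ 0 := by
    intro h
    rw [h] at hdeg
    simp at hdeg
  obtain ⟨c, hc⟩ : ∃ c : GaloisField 2 m, Q.eval c ≠ 0 := by
    by_contra! hcon
    have hfint : Fintype (GaloisField 2 m) := Fintype.ofFinite _
    have h1 := Polynomial.card_roots' Q
    have h2 : (Finset.univ : Finset (GaloisField 2 m)).card ≤ Q.natDegree := by
      apply Polynomial.card_le_degree_of_subset_roots
      intro c _
      rw [Polynomial.mem_roots hQ]
      exact hcon c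
    rw [hdeg, Finset.card_univ, ← Nat.card_eq_fintype_card, hcard] at h2
    have h3 : 2 ^ 5 ≤ 2 ^ m := Nat.pow_le_pow_right (by norm_num) hm
    omega
  refine ⟨φ c, ?_, ?_⟩
  · have hfint : Fintype (GaloisField 2 m) := Fintype.ofFinite _
    have h1 : c ^ 2 ^ m = c := by
      rw [← hcard, Nat.card_eq_fintype_card]
      exact FiniteField.pow_card c
    rw [iterateFrobenius_def, ← map_pow, h1]
  · have h1 : φ (Q.eval c) ≠ 0 := by
      intro h
      exact hc ((map_eq_zero φ).1 h)
    simpa [Q] using h1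

end general

/-- pairwise coprime numbers -/
noncomputable def mm (i : ℕ) : ℕ := Nat.nth Nat.Prime (i + 2)

lemma mm_prime (i : ℕ) : (mm i).Prime := Nat.prime_nth_prime _

lemma mm_ge (i : ℕ) : 5 ≤ mm i := by
  have h : Nat.nth Nat.Prime 2 ≤ mm i := by
    unfold mm
    exact (Nat.nth_le_nth Nat.infinite_setOfPred_prime).2 (by omega)
  have h5 : Nat.nth Nat.Prime 2 = 5 := by
    have := Nat.nth_count (p := Nat.Prime) (n := 5) (by norm_num)
    have h2 : Nat.count Nat.Prime 5 = 2 := by decide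
    rwa [h2] at this
  omega

lemma mm_coprime {i j : ℕ} (h : i ≠ j) : Nat.Coprime (mm i) (mm j) := by
  rw [Nat.coprime_primes (mm_prime i) (mm_prime j)]
  unfold mm
  intro heq
  have := Nat.nth_injective Nat.infinite_setOfPred_prime heq
  omega

/-- **Answer to Q1 and Q2 (negative).**  For `q = 2` and `k = 6`: for every `N` there are `t > 0`
and an affine-invariant property `P` of functions `F_{2^t} → F_2` which has a `6`-local
characterization, but `k'(P) > N`. -/
theorem result : ∀ N : ℕ, ∃ t : ℕ, 0 < t ∧ ∃ P : Set (GaloisField 2 t → ZMod 2),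
    AffineInvariant P ∧ HasLocalCharacterization 6 P ∧ N < singleOrbitLocality P := by
  intro N
  set r := N + 1 with hr
  let t := ∏ i : Fin r, mm i
  have ht : 0 < t := Finset.prod_pos fun i _ => (mm_prime i).pos
  have hfin : Module.finrank (ZMod 2) (GaloisField 2 t) = t := GaloisField.finrank 2 ht.ne'
  -- Chinese remainder
  have hu : ∀ i : Fin r, ∃ u : ℕ, (∃ k, u = mm i * k + 1) ∧ ∀ j ≠ i, mm j ∣ u := by
    intro i
    have hcop : Nat.Coprime (∏ j ∈ Finset.univ.erase i, mm (j : Fin r)) (mm i) := by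
      apply Nat.Coprime.prod_left
      intro j hj
      apply mm_coprime
      intro h
      exact (Finset.ne_of_mem_erase hj) (Fin.ext h)
    obtain ⟨v, hv⟩ := Nat.exists_mul_mod_eq_one_of_coprime hcop (mm_prime i).one_lt
    refine ⟨(∏ j ∈ Finset.univ.erase i, mm (j : Fin r)) * v, ?_, ?_⟩
    · refine ⟨((∏ j ∈ Finset.univ.erase i, mm (j : Fin r)) * v) / mm i, ?_⟩
      have := Nat.div_add_mod ((∏ j ∈ Finset.univ.erase i, mm (j : Fin r)) * v) (mm i)
      omega
    · intro j hj
      apply Dvd.dvd.mul_right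
      exact Finset.dvd_prod_of_mem (fun j : Fin r => mm j)
        (Finset.mem_erase.2 ⟨hj, Finset.mem_univ _⟩)
  choose u hu1 hu2 using hu
  refine ⟨t, ht, (PP u : Submodule (ZMod 2) (GaloisField 2 t → ZMod 2)),
    affineInvariant_PP u, hasLocal_PP u, ?_⟩
  have hdet : ∀ i : Fin r, ∃ x : Fin 6 → GaloisField 2 t,
      Good u x ∧ ∑ l, x l * fr (u i + u i) (x l) ≠ 0 := by
    intro i
    have hdvd : ∀ j : Fin r, mm j ∣ t := fun j =>
      Finset.dvd_prod_of_mem (fun j : Fin r => mm j) (Finset.mem_univ j)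
    obtain ⟨c, hc1, hc2⟩ := exists_c (K := GaloisField 2 t) (mm i) t (mm_ge i) (hdvd i) hfin
    have h1 : fr (u i) c = c ^ 2 := by
      obtain ⟨k, hk⟩ := hu1 i
      rw [hk, add_comm, iterateFrobenius_add_apply, fr_mul_fix _ _ _ hc1,
        iterateFrobenius_one_apply]
    have h0 : ∀ j ≠ i, fr (u j) c = c := by
      intro j hj
      obtain ⟨k, hk⟩ := hu2 j i hj.symm
      rw [hk, fr_mul_fix _ _ _ hc1]
    exact ⟨six c, six_good u i c h0 h1, six_detect u i c h1 hc2⟩
  have hne : ((PP u : Submodule (ZMod 2) (GaloisField 2 t → ZMod 2)) :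
      Set (GaloisField 2 t → ZMod 2)) ≠ Set.univ := by
    obtain ⟨x, hx, h1⟩ := hdet 0
    obtain ⟨c, hc⟩ := exists_not_mem u x hx _ h1
    intro h
    apply hc
    rw [← SetLike.mem_coe, h]
    trivial
  have hmem := Nat.sInf_mem (s := {k | HasSingleOrbitCharacterization k
    ((PP u : Submodule (ZMod 2) (GaloisField 2 t → ZMod 2)) : Set (GaloisField 2 t → ZMod 2))})
    (exists_single_orbit _ (affineInvariant_PP u) hne)
  by_contra hcon
  have hlt : singleOrbitLocality ((PP u : Submodule (ZMod 2) (GaloisField 2 t → ZMod 2)) :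
      Set (GaloisField 2 t → ZMod 2)) < r := by omega
  exact no_single_orbit u hdet hlt hmem

end Pool.Agent.Results.MP_cb1103_lc.SingleOrbitUnbounded
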